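import Mathlib
import Pool.Agent.Q35.CL.Main

set_option autoImplicit false

/-! The maximal singular locus of the closure of a `GL_4 × GL_3`-orbit on the flag variety of
`GL_7` can be an orbit closure whose clan has an arc joining non-adjacent positions. -/

namespace Pool.Agent.Results.MP_25f57f_ag.NonAdjacentArc

open Pool.Agent.Q35.CL Letter

/-- For the `(4,3)`-clans `γ = 1 + - 1 2 + 2` and `α = + + - - 1 + 1` the singular locus of `Y_γ`
is exactly the (irreducible) orbit closure `Y_α`; so `Y_α` is an irreducible component of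
`Sing(Y_γ)`, although the arc of `α` joins the non-adjacent positions 5 and 7 (the indices `4`
and `6` of `Fin 7`). -/
theorem result : ∃ γ α : Clan 4 3,
    γ.c = ![num 1, plus, minus, num 1, num 2, plus, num 2] ∧
    α.c = ![plus, plus, minus, minus, num 1, plus, num 1] ∧
    (∃ g, IsBase γ g) ∧ (∃ g, IsBase α g) ∧
    IrredClosed (Y γ) ∧
    Sing (Y γ) = Y α ∧
    IsComponent (Y α) (Sing (Y γ)) ∧
    ∃ i j, α.IsArc i j ∧ i.val = 4 ∧ j.val = 6 ∧ i.val + 1 < j.val :=
  ⟨γ0, α0, rfl, rfl, ⟨gγ, base_γ⟩, ⟨gα, base_α⟩, irred_γ, Sing_γ, component,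
    4, 6, (arc_α 4 6).2 ⟨rfl, rfl⟩, rfl, rfl, by decide⟩

end Pool.Agent.Results.MP_25f57f_ag.NonAdjacentArc
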